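import Pool.Agent.W744.BU.Stm

set_option autoImplicit false

open Set Filter Topology

namespace Pool.Agent.W566.BU.TENS

open Pool.Agent.W744.BU

lemma two_toReal : (2 : ENNReal).toReal = 2 := by norm_num

lemma mem2 {I : Type} (f : I → ℂ) (h : Summable fun i => ‖f i‖ ^ 2) :
    Memℓp (E := fun _ : I => ℂ) f 2 := by
  rw [memℓp_gen_iff (by norm_num)]
  simpa [two_toReal] using h

lemma sum2 {I : Type} (ξ : L2 I) : HasSum (fun i => ‖ξ i‖ ^ 2) (‖ξ‖ ^ 2) := by
  have h := lp.hasSum_norm (p := 2) (by norm_num) ξ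
  simpa [two_toReal] using h

/-- The slice. -/
noncomputable def slice {K L P : Type} (φ : P ≃ K × L) (ξ : L2 P) (k : K) : L2 L :=
  ⟨fun l => ξ (φ.symm (k, l)), mem2 _ (by
    have h := (sum2 ξ).summable
    exact h.comp_injective (i := fun l => φ.symm (k, l)) (by
      intro a b hab
      simpa using hab))⟩

lemma slice_apply {K L P : Type} (φ : P ≃ K × L) (ξ : L2 P) (k : K) (l : L) :
    slice φ ξ k l = ξ (φ.symm (k, l)) := rfl

lemma slice_add {K L P : Type} (φ : P ≃ K × L) (ξ η : L2 P) (k : K) :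
    slice φ (ξ + η) k = slice φ ξ k + slice φ η k := by
  ext l
  rfl

lemma slice_smul {K L P : Type} (φ : P ≃ K × L) (z : ℂ) (ξ : L2 P) (k : K) :
    slice φ (z • ξ) k = z • slice φ ξ k := by
  ext l
  rfl

lemma sum_slice {K L P : Type} (φ : P ≃ K × L) (ξ : L2 P) :
    HasSum (fun k => ‖slice φ ξ k‖ ^ 2) (‖ξ‖ ^ 2) := by
  have h : HasSum (fun q : K × L => ‖ξ (φ.symm q)‖ ^ 2) (‖ξ‖ ^ 2) :=
    (φ.symm.hasSum_iff (f := fun p => ‖ξ p‖ ^ 2)).2 (sum2 ξ)
  exact h.prod_fiberwise fun k => sum2 (slice φ ξ k)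

lemma slice_le {K L P : Type} (φ : P ≃ K × L) (ξ : L2 P) (k : K) :
    ‖slice φ ξ k‖ ≤ ‖ξ‖ := by
  have h := (sum_slice φ ξ)
  have h2 := le_hasSum h k (fun j _ => by positivity)
  exact le_of_sq_le_sq h2 (norm_nonneg _) 

lemma T_sum {K L P : Type} (φ : P ≃ K × L) (b : Op L) (ξ : L2 P) :
    Summable (fun q : K × L => ‖(b (slice φ ξ q.1)) q.2‖ ^ 2) ∧
      ∑' q : K × L, ‖(b (slice φ ξ q.1)) q.2‖ ^ 2 ≤ (‖b‖ * ‖ξ‖) ^ 2 := by
  have hk : ∀ k, HasSum (fun l => ‖(b (slice φ ξ k)) l‖ ^ 2) (‖b (slice φ ξ k)‖ ^ 2) :=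
    fun k => sum2 _
  have hle : ∀ k, ‖b (slice φ ξ k)‖ ^ 2 ≤ ‖b‖ ^ 2 * ‖slice φ ξ k‖ ^ 2 := by
    intro k
    rw [← mul_pow]
    exact pow_le_pow_left₀ (norm_nonneg _) (b.le_opNorm _) 2
  have hs := (sum_slice φ ξ).mul_left (‖b‖ ^ 2)
  have hsum : Summable fun k => ‖b (slice φ ξ k)‖ ^ 2 :=
    Summable.of_nonneg_of_le (fun k => by positivity) hle hs.summable
  have hS : Summable (fun q : K × L => ‖(b (slice φ ξ q.1)) q.2‖ ^ 2) := by
    rw [summable_prod_of_nonneg (fun q => by positivity)]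
    refine ⟨fun k => (hk k).summable, ?_⟩
    refine hsum.congr fun k => ?_
    exact ((hk k).tsum_eq).symm
  refine ⟨hS, ?_⟩
  rw [hS.tsum_prod]
  have : (fun k => ∑' l, ‖(b (slice φ ξ k)) l‖ ^ 2) = fun k => ‖b (slice φ ξ k)‖ ^ 2 := by
    funext k
    exact (hk k).tsum_eq
  rw [this, mul_pow, ← hs.tsum_eq]
  exact hsum.tsum_le_tsum hle hs.summable

/-- `1 ⊗ b` along the equivalence. -/
noncomputable def Tv {K L P : Type} (φ : P ≃ K × L) (b : Op L) (ξ : L2 P) : L2 P :=
  ⟨fun p => (b (slice φ ξ (φ p).1)) (φ p).2, mem2 _ (by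
    have h := (T_sum φ b ξ).1
    exact (φ.summable_iff (f := fun q : K × L => ‖(b (slice φ ξ q.1)) q.2‖ ^ 2)).2 h)⟩

lemma Tv_apply {K L P : Type} (φ : P ≃ K × L) (b : Op L) (ξ : L2 P) (p : P) :
    Tv φ b ξ p = (b (slice φ ξ (φ p).1)) (φ p).2 := rfl

lemma Tv_norm {K L P : Type} (φ : P ≃ K × L) (b : Op L) (ξ : L2 P) :
    ‖Tv φ b ξ‖ ≤ ‖b‖ * ‖ξ‖ := by
  have h := (T_sum φ b ξ).2
  have h1 := sum2 (Tv φ b ξ)
  have h2 : ‖Tv φ b ξ‖ ^ 2 ≤ (‖b‖ * ‖ξ‖) ^ 2 := by
    rw [← h1.tsum_eq]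
    refine le_trans (le_of_eq ?_) h
    exact φ.tsum_eq (fun q : K × L => ‖(b (slice φ ξ q.1)) q.2‖ ^ 2)
  exact le_of_sq_le_sq h2 (by positivity)

/-- `1 ⊗ b` along the equivalence. -/
noncomputable def T {K L P : Type} (φ : P ≃ K × L) (b : Op L) : Op P :=
  LinearMap.mkContinuous
    { toFun := Tv φ b
      map_add' := by
        intro ξ η
        ext p
        show (b (slice φ (ξ + η) (φ p).1)) (φ p).2 = _
        rw [slice_add, map_add]
        rfl
      map_smul' := by
        intro z ξ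
        ext p
        show (b (slice φ (z • ξ) (φ p).1)) (φ p).2 = _
        rw [slice_smul, map_smul]
        rfl } ‖b‖ (Tv_norm φ b)

lemma T_apply {K L P : Type} (φ : P ≃ K × L) (b : Op L) (ξ : L2 P) (p : P) :
    T φ b ξ p = (b (slice φ ξ (φ p).1)) (φ p).2 := rfl

lemma T_norm {K L P : Type} (φ : P ≃ K × L) (b : Op L) : ‖T φ b‖ ≤ ‖b‖ :=
  LinearMap.mkContinuous_norm_le _ (norm_nonneg _) _

lemma slice_T {K L P : Type} (φ : P ≃ K × L) (b : Op L) (ξ : L2 P) (k : K) :
    slice φ (T φ b ξ) k = b (slice φ ξ k) := by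
  ext l
  rw [slice_apply, T_apply]
  simp

lemma T_mul {K L P : Type} (φ : P ≃ K × L) (b b' : Op L) : T φ (b * b') = T φ b * T φ b' := by
  ext ξ p
  rw [T_apply]
  show _ = (T φ b (T φ b' ξ)) p
  rw [T_apply, slice_T]
  rfl

open Classical in
lemma slice_e {K L P : Type} (φ : P ≃ K × L) (q : P) (k : K) :
    slice φ (e q) k = if k = (φ q).1 then e (φ q).2 else 0 := by
  ext l
  rw [slice_apply]
  by_cases hk : k = (φ q).1
  · subst hk
    rw [if_pos rfl]
    unfold e
    by_cases hl : l = (φ q).2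
    · subst hl
      simp
    · rw [lp.single_apply_ne _ _ _ hl, lp.single_apply_ne]
      intro h
      apply hl
      have := congrArg φ h
      simp at this
      have h2 := congrArg Prod.snd this
      simpa using h2
  · rw [if_neg hk]
    unfold e
    rw [lp.single_apply_ne]
    · rfl
    · intro h
      apply hk
      have := congrArg φ h
      simp at this
      have h2 := congrArg Prod.fst this
      simpa using h2

open Classical in
lemma T_entry {K L P : Type} (φ : P ≃ K × L) (b : Op L) (p q : P) :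
    entry (T φ b) p q = if (φ p).1 = (φ q).1 then entry b (φ p).2 (φ q).2 else 0 := by
  unfold entry
  rw [T_apply, slice_e]
  by_cases h : (φ p).1 = (φ q).1
  · rw [if_pos h, if_pos h]
  · rw [if_neg h, if_neg h, map_zero]
    rfl

/-- `a ⊗ 1` -/
noncomputable def T1 {I J : Type} (a : Op I) : Op (I × J) := T (Equiv.prodComm I J) a

/-- `1 ⊗ b` -/
noncomputable def T2 {I J : Type} (b : Op J) : Op (I × J) := T (Equiv.refl (I × J)) b

open Classical in
lemma T1_entry {I J : Type} (a : Op I) (p q : I × J) :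
    entry (T1 a) p q = if p.2 = q.2 then entry a p.1 q.1 else 0 := by
  unfold T1
  rw [T_entry]
  simp only [Equiv.prodComm_apply, Prod.fst_swap, Prod.snd_swap] <;> congr

open Classical in
lemma T2_entry {I J : Type} (b : Op J) (p q : I × J) :
    entry (T2 b) p q = if p.1 = q.1 then entry b p.2 q.2 else 0 := by
  unfold T2
  rw [T_entry]
  simp only [Equiv.refl_apply] <;> congr

section main
variable (hENT : S_ENT)
include hENT

lemma e12 {I J : Type} (a : Op I) (b : Op J) (p q : I × J) :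
    entry (T1 a * T2 b) p q = entry a p.1 q.1 * entry b p.2 q.2 := by
  classical
  have h := hENT.2.2.1 _ (T1 a : Op (I × J)) (T2 b) p q
  have h2 : HasSum (fun k : I × J => entry (T1 a) p k * entry (T2 b) k q)
      (entry (T1 a) p (q.1, p.2) * entry (T2 b) (q.1, p.2) q) := by
    apply hasSum_single
    rintro ⟨i, k⟩ hne
    rw [T1_entry, T2_entry]
    by_cases h1 : p.2 = k
    · by_cases h2 : i = q.1
      · exact absurd (by rw [h1, h2]) hne
      · simp [h2]
    · simp [h1]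
  rw [h.unique h2, T1_entry, T2_entry]
  simp

lemma e21 {I J : Type} (a : Op I) (b : Op J) (p q : I × J) :
    entry (T2 b * T1 a) p q = entry a p.1 q.1 * entry b p.2 q.2 := by
  classical
  have h := hENT.2.2.1 _ (T2 b : Op (I × J)) (T1 a) p q
  have h2 : HasSum (fun k : I × J => entry (T2 b) p k * entry (T1 a) k q)
      (entry (T2 b) p (p.1, q.2) * entry (T1 a) (p.1, q.2) q) := by
    apply hasSum_single
    rintro ⟨i, k⟩ hne
    rw [T1_entry, T2_entry]
    by_cases h1 : p.1 = i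
    · by_cases h2 : k = q.2
      · exact absurd (by rw [h1, h2]) hne
      · simp [h2]
    · simp [h1]
  rw [h.unique h2, T1_entry, T2_entry]
  simp [mul_comm]

lemma comm12 {I J : Type} (a : Op I) (b : Op J) :
    (T1 a : Op (I × J)) * T2 b = T2 b * T1 a :=
  hENT.1 _ _ _ fun p q => by rw [e12 hENT, e21 hENT]

lemma tens_entry {I J : Type} (a : Op I) (b : Op J) (p q : I × J) :
    entry (tens a b) p q = entry a p.1 q.1 * entry b p.2 q.2 := by
  have h : ∃ c : Op (I × J), ∀ p q, entry c p q = entry a p.1 q.1 * entry b p.2 q.2 :=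
    ⟨T1 a * T2 b, e12 hENT a b⟩
  unfold tens opOf
  rw [dif_pos h]
  exact h.choose_spec p q

lemma tens_eq {I J : Type} (a : Op I) (b : Op J) : tens a b = T1 a * T2 b :=
  hENT.1 _ _ _ fun p q => by rw [e12 hENT, tens_entry hENT]

end main

open Classical in
/-- the embedding of a slice, as a function -/
noncomputable def embF {I J : Type} (i₀ : I) (x : L2 J) (p : I × J) : ℂ :=
  if p.1 = i₀ then x p.2 else 0

lemma embF_sum {I J : Type} (i₀ : I) (x : L2 J) :
    HasSum (fun p : I × J => ‖embF i₀ x p‖ ^ 2) (‖x‖ ^ 2) := by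
  have hinj : Function.Injective (fun k : J => (i₀, k)) := by
    intro a b h
    simpa using h
  refine (hinj.hasSum_iff (f := fun p : I × J => ‖embF i₀ x p‖ ^ 2)
    (a := ‖x‖ ^ 2) ?_).1 ?_
  · rintro ⟨i, k⟩ hp
    have : i ≠ i₀ := by
      intro h
      apply hp
      exact ⟨k, by rw [h]⟩
    simp [embF, this]
  · have h := sum2 x
    have h2 : ((fun p : I × J => ‖embF i₀ x p‖ ^ 2) ∘ fun k : J => (i₀, k)) =
        fun k => ‖x k‖ ^ 2 := by
      funext k
      simp [embF]
    rw [h2]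
    exact h

/-- the embedding of a slice -/
noncomputable def emb {I J : Type} (i₀ : I) (x : L2 J) : L2 (I × J) :=
  ⟨embF i₀ x, mem2 _ (embF_sum i₀ x).summable⟩

lemma emb_norm {I J : Type} (i₀ : I) (x : L2 J) : ‖emb i₀ x‖ = ‖x‖ := by
  have h1 := sum2 (emb i₀ x)
  have h2 := embF_sum i₀ x
  have h3 : ‖emb i₀ x‖ ^ 2 = ‖x‖ ^ 2 := h1.unique h2
  exact (pow_left_inj₀ (norm_nonneg _) (norm_nonneg _) (by norm_num)).1 h3

lemma slice_emb {I J : Type} (i₀ : I) (x : L2 J) :
    slice (Equiv.refl (I × J)) (emb i₀ x) i₀ = x := by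
  ext l
  rw [slice_apply]
  show embF i₀ x (i₀, l) = x l
  simp [embF]

lemma le_T2 {I J : Type} (i₀ : I) (b : Op J) : ‖b‖ ≤ ‖(T2 b : Op (I × J))‖ := by
  refine b.opNorm_le_bound (norm_nonneg _) fun x => ?_
  have h1 : slice (Equiv.refl (I × J)) (T2 b (emb i₀ x)) i₀ = b x := by
    unfold T2
    rw [slice_T, slice_emb]
  rw [← h1]
  refine (slice_le _ _ _).trans ?_
  refine ((T2 b : Op (I × J)).le_opNorm _).trans ?_
  rw [emb_norm]

lemma one_norm (I : Type) : ‖(1 : Op I)‖ ≤ 1 := ContinuousLinearMap.norm_id_le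

theorem main (hENT : S_ENT) : S_TENS := by
  classical
  have htn : ∀ (I J : Type) (a : Op I) (b : Op J), ‖tens a b‖ ≤ ‖a‖ * ‖b‖ := by
    intro I J a b
    rw [tens_eq hENT]
    refine (norm_mul_le _ _).trans ?_
    exact mul_le_mul (T_norm _ _) (T_norm _ _) (norm_nonneg _) (norm_nonneg _)
  refine ⟨?_, ?_, ?_, ?_, ?_, ?_, ?_, ?_⟩
  · intro I J a b
    refine ⟨fun i k i' k' => tens_entry hENT a b (i, k) (i', k'), htn I J a b⟩
  · intro I J a a' b b'
    rw [tens_eq hENT, tens_eq hENT, tens_eq hENT]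
    have h1 : (T1 (a * a') : Op (I × J)) = T1 a * T1 a' := T_mul _ _ _
    have h2 : (T2 (b * b') : Op (I × J)) = T2 b * T2 b' := T_mul _ _ _
    have h3 := comm12 hENT (I := I) (J := J) a' b
    rw [h1, h2, mul_assoc, mul_assoc, ← mul_assoc (T1 a') (T2 b), h3, mul_assoc]
  · intro I J a b
    refine hENT.1 _ _ _ fun p q => ?_
    rw [tens_entry hENT, hENT.2.1, hENT.2.1, hENT.2.1, tens_entry hENT, star_mul']
  · intro I J
    refine hENT.1 _ _ _ fun p q => ?_
    rw [tens_entry hENT, hENT.2.2.2.2, hENT.2.2.2.2, hENT.2.2.2.2]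
    by_cases h : p = q
    · subst h
      simp
    · rw [if_neg h]
      by_cases h1 : p.1 = q.1
      · by_cases h2 : p.2 = q.2
        · exact absurd (Prod.ext h1 h2) h
        · simp [h2]
      · simp [h1]
  · intro I J a a' b
    refine hENT.1 _ _ _ fun p q => ?_
    have h1 : entry (tens a b + tens a' b) p q = entry (tens a b) p q + entry (tens a' b) p q := rfl
    have h2 : entry (a + a') p.1 q.1 = entry a p.1 q.1 + entry a' p.1 q.1 := rfl
    rw [h1, tens_entry hENT, tens_entry hENT, tens_entry hENT, h2, add_mul]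
  · intro I J a b b'
    refine hENT.1 _ _ _ fun p q => ?_
    have h1 : entry (tens a b + tens a b') p q = entry (tens a b) p q + entry (tens a b') p q := rfl
    have h2 : entry (b + b') p.2 q.2 = entry b p.2 q.2 + entry b' p.2 q.2 := rfl
    rw [h1, tens_entry hENT, tens_entry hENT, tens_entry hENT, h2, mul_add]
  · intro I J z a b
    constructor
    · refine hENT.1 _ _ _ fun p q => ?_
      have h1 : entry (z • tens a b) p q = z * entry (tens a b) p q := rfl
      have h2 : entry (z • a) p.1 q.1 = z * entry a p.1 q.1 := rfl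
      rw [h1, tens_entry hENT, tens_entry hENT, h2, mul_assoc]
    · refine hENT.1 _ _ _ fun p q => ?_
      have h1 : entry (z • tens a b) p q = z * entry (tens a b) p q := rfl
      have h2 : entry (z • b) p.2 q.2 = z * entry b p.2 q.2 := rfl
      rw [h1, tens_entry hENT, tens_entry hENT, h2]
      ring
  · intro I J hI b
    obtain ⟨i₀⟩ := hI
    apply le_antisymm
    · refine (htn I J 1 b).trans ?_
      calc ‖(1 : Op I)‖ * ‖b‖ ≤ 1 * ‖b‖ := mul_le_mul_of_nonneg_right (one_norm I) (norm_nonneg _)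
        _ = ‖b‖ := one_mul _
    · have h : tens (1 : Op I) b = T2 b := by
        refine hENT.1 _ _ _ fun p q => ?_
        rw [tens_entry hENT, T2_entry, hENT.2.2.2.2]
        by_cases h : p.1 = q.1
        · rw [if_pos h, if_pos h, one_mul]
        · rw [if_neg h, if_neg h, zero_mul]
      rw [h]
      exact le_T2 i₀ b

end Pool.Agent.W566.BU.TENS
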